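import Pool.Agent.Helper59.LUC.Goals

set_option autoImplicit false

open Polynomial

namespace Pool.Agent.Helper59.LUC

namespace PkLT2

/-- coefficient of a product at the sum of the degree bounds -/
lemma coeff_prod_le {ι : Type*} (s : Finset ι) (f : ι → ℂ[X]) (d : ι → ℕ)
    (h : ∀ i ∈ s, (f i).natDegree ≤ d i) :
    (∏ i ∈ s, f i).natDegree ≤ ∑ i ∈ s, d i ∧
    (∏ i ∈ s, f i).coeff (∑ i ∈ s, d i) = ∏ i ∈ s, (f i).coeff (d i) := by
  classical
  induction s using Finset.induction_on with
  | empty => simp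
  | insert a s ha ih =>
    have h1 := ih (fun i hi => h i (Finset.mem_insert_of_mem hi))
    have h2 := h a (Finset.mem_insert_self a s)
    rw [Finset.prod_insert ha, Finset.sum_insert ha, Finset.prod_insert ha]
    refine ⟨?_, ?_⟩
    · exact natDegree_mul_le.trans (add_le_add h2 h1.1)
    · rw [coeff_mul_add_eq_of_natDegree_le h2 h1.1, h1.2]

/-- coefficient of a determinant at the sum of the column degree bounds -/
lemma coeff_det {m : ℕ} (G : Matrix (Fin m) (Fin m) ℂ[X]) (d : Fin m → ℕ)
    (h : ∀ u k, (G u k).natDegree ≤ d k) :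
    G.det.natDegree ≤ ∑ k, d k ∧
    G.det.coeff (∑ k, d k) = Matrix.det (Matrix.of fun u k => (G u k).coeff (d k)) := by
  constructor
  · rw [Matrix.det_apply]
    refine natDegree_sum_le_of_forall_le _ _ fun σ _ => ?_
    have h1 := (coeff_prod_le Finset.univ (fun i => G (σ i) i) d (fun i _ => h _ _)).1
    rcases Int.units_eq_one_or (Equiv.Perm.sign σ) with e | e
    · rw [e, one_smul]; exact h1
    · rw [e, Units.neg_smul, one_smul, natDegree_neg]; exact h1
  · rw [Matrix.det_apply, Matrix.det_apply, finsetSum_coeff]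
    refine Finset.sum_congr rfl fun σ _ => ?_
    have h1 := (coeff_prod_le Finset.univ (fun i => G (σ i) i) d (fun i _ => h _ _)).2
    rcases Int.units_eq_one_or (Equiv.Perm.sign σ) with e | e
    · rw [e, one_smul, one_smul, h1]; rfl
    · rw [e, Units.neg_smul, one_smul, Units.neg_smul, one_smul, coeff_neg, h1]; rfl

lemma pow_inj {η : ℂ} (h0 : η ≠ 0) (hr : ∀ k : ℕ, 0 < k → η ^ k ≠ 1) {a b : ℕ}
    (h : η ^ a = η ^ b) : a = b := by
  have key : ∀ a b : ℕ, a < b → η ^ a = η ^ b → False := by
    intro a b hab h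
    have h1 : η ^ b = η ^ a * η ^ (b - a) := by
      rw [← pow_add]; congr 1; omega
    rw [h1] at h
    have h2 : η ^ a ≠ 0 := pow_ne_zero _ h0
    have h3 : η ^ (b - a) = 1 := by
      have h4 : η ^ a * η ^ (b - a) = η ^ a * 1 := by rw [mul_one]; exact h.symm
      exact mul_left_cancel₀ h2 h4
    exact hr _ (by omega) h3
  rcases lt_trichotomy a b with hab | hab | hab
  · exact (key a b hab h).elim
  · exact hab
  · exact (key b a hab h.symm).elim

theorem thm : G_LT2 := by
  classical
  intro η A B S2 T0 n j h0 hr hn hcop hS2 hAB p hp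
  by_contra hne
  -- the polynomials
  set P : Fin B → ℂ[X] := fun b => ∑ a : Fin A, C (p a b) * X ^ (a : ℕ) with hP
  have hPcoeff : ∀ (a : Fin A) (b : Fin B), (P b).coeff (a : ℕ) = p a b := by
    intro a b
    simp only [hP, finsetSum_coeff, coeff_C_mul, coeff_X_pow]
    rw [Finset.sum_eq_single a]
    · simp
    · intro c _ hc
      have : ¬ ((a : ℕ) = (c : ℕ)) := fun e => hc (Fin.ext e.symm)
      simp [this]
    · intro h; exact absurd (Finset.mem_univ _) h
  have hPdeg : ∀ b, (P b).natDegree ≤ A - 1 := by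
    intro b
    refine natDegree_sum_le_of_forall_le _ _ fun a _ => ?_
    refine (natDegree_C_mul_X_pow_le _ _).trans ?_
    have := a.2
    omega
  have hPeval : ∀ b (x : ℂ), (P b).eval x = ∑ a : Fin A, p a b * x ^ (a : ℕ) := by
    intro b x
    simp only [hP, eval_finsetSum, eval_mul, eval_C, eval_pow, eval_X]
  -- the support
  set S : Finset (Fin B) := Finset.univ.filter (fun b => P b ≠ 0) with hS
  have hSne : S.Nonempty := by
    by_contra hemp
    apply hne
    funext a b
    have hb : P b = 0 := by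
      by_contra hb
      exact hemp ⟨b, by simp [hS, hb]⟩
    rw [← hPcoeff a b, hb]
    simp
  set m : ℕ := S.card with hm
  have hmpos : 0 < m := Finset.card_pos.mpr hSne
  have hmB : m ≤ B := by
    have := Finset.card_le_univ S
    simpa using this
  set bb : Fin m → Fin B := fun k => (S.equivFin.symm k : Fin B) with hbb
  have hbbinj : Function.Injective bb := by
    intro k k' h
    exact S.equivFin.symm.injective (Subtype.ext h)
  have hbbP : ∀ k, P (bb k) ≠ 0 := by
    intro k
    exact (Finset.mem_filter.mp (S.equivFin.symm k).2).2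
  have hsumbb : ∀ f : Fin B → ℂ, (∀ b, P b = 0 → f b = 0) → ∑ b, f b = ∑ k, f (bb k) := by
    intro f hf
    have h1 : ∑ b, f b = ∑ b ∈ S, f b := by
      symm
      apply Finset.sum_subset (Finset.subset_univ _)
      intro b _ hb
      apply hf
      by_contra h
      exact hb (by simp [hS, h])
    rw [h1, ← Finset.sum_coe_sort S f]
    exact (Equiv.sum_comp S.equivFin.symm (fun b : S => f b)).symm
  have hA : 0 < A := by
    obtain ⟨b, hb⟩ := hSne
    rcases Nat.eq_zero_or_pos A with h | h
    · exfalso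
      subst h
      have : P b = 0 := by simp [hP]
      simp [hS, this] at hb
    · exact h
  have hB : 0 < B := lt_of_lt_of_le hmpos hmB
  -- the matrix
  set G : Matrix (Fin m) (Fin m) ℂ[X] :=
    Matrix.of fun u k => taylor (((j * (u : ℕ) : ℕ) : ℂ)) (P (bb k)) *
      C (η ^ ((u : ℕ) * (bb k : ℕ))) with hG
  set d : Fin m → ℕ := fun k => (P (bb k)).natDegree with hd
  have hGdeg : ∀ u k, (G u k).natDegree ≤ d k := by
    intro u k
    simp only [hG, Matrix.of_apply, hd]
    refine (natDegree_mul_C_le _ _).trans ?_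
    rw [natDegree_taylor]
  obtain ⟨hdet1, hdet2⟩ := coeff_det G d hGdeg
  have hD : ∑ k, d k < A * B := by
    calc ∑ k, d k ≤ ∑ _k : Fin m, (A - 1) := Finset.sum_le_sum fun k _ => hPdeg _
      _ = m * (A - 1) := by simp
      _ ≤ B * (A - 1) := Nat.mul_le_mul_right _ hmB
      _ < B * A := by
          apply Nat.mul_lt_mul_of_pos_left _ hB
          omega
      _ = A * B := Nat.mul_comm _ _
  -- the determinant vanishes at many points
  have hvan : ∀ s t : ℕ, s < S2 → t < T0 → G.det.eval ((j * s + n * t : ℕ) : ℂ) = 0 := by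
    intro s t hs ht
    set x : ℂ := ((j * s + n * t : ℕ) : ℂ) with hx
    have h1 : G.det.eval x = (G.map (evalRingHom x)).det := by
      have := RingHom.map_det (evalRingHom x) G
      simpa [RingHom.mapMatrix_apply] using this
    rw [h1]
    apply Matrix.exists_mulVec_eq_zero_iff.mp
    refine ⟨fun k => η ^ ((bb k : ℕ) * s), ?_, ?_⟩
    · intro h
      have h2 := congrFun h ⟨0, hmpos⟩
      simp only [Pi.zero_apply] at h2
      exact pow_ne_zero _ h0 h2
    · funext u
      simp only [Matrix.mulVec, dotProduct, Matrix.map_apply, Pi.zero_apply, hG, Matrix.of_apply,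
        coe_evalRingHom, eval_mul, eval_C, taylor_eval]
      have h3 := hp (s + u) t (by
        have := u.2
        omega) ht
      rw [Finset.sum_comm] at h3
      rw [← h3, hsumbb]
      · refine Finset.sum_congr rfl fun k _ => ?_
        rw [hPeval, Finset.sum_mul, Finset.sum_mul]
        refine Finset.sum_congr rfl fun a _ => ?_
        have e1 : x + ((j * (u : ℕ) : ℕ) : ℂ) = ((j * (s + (u : ℕ)) + n * t : ℕ) : ℂ) := by
          rw [hx]; push_cast; ring
        rw [add_comm x] at e1
        have e2 : η ^ ((bb k : ℕ) * (s + (u : ℕ))) =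
            η ^ ((u : ℕ) * (bb k : ℕ)) * η ^ ((bb k : ℕ) * s) := by
          rw [← pow_add]; congr 1; ring
        rw [add_comm] at e1
        rw [e1, e2]; ring
      · intro b hb
        have h5 : ∀ a, p a b = 0 := by
          intro a
          rw [← hPcoeff a b, hb]; simp
        simp [h5]
  -- injectivity of the points
  have hinj : Function.Injective
      (fun st : Fin S2 × Fin T0 => ((j * (st.1 : ℕ) + n * (st.2 : ℕ) : ℕ) : ℂ)) := by
    rintro ⟨s, t⟩ ⟨s', t'⟩ h
    have h1 : j * (s : ℕ) + n * (t : ℕ) = j * (s' : ℕ) + n * (t' : ℕ) := by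
      have h' : ((j * (s : ℕ) + n * (t : ℕ) : ℕ) : ℂ) = ((j * (s' : ℕ) + n * (t' : ℕ) : ℕ) : ℂ) := h
      exact_mod_cast h'
    have h2 : j * (s : ℕ) ≡ j * (s' : ℕ) [MOD n] := by
      have h3 : (j * (s : ℕ) + n * (t : ℕ)) % n = (j * (s' : ℕ) + n * (t' : ℕ)) % n := by rw [h1]
      rw [Nat.add_mul_mod_self_left, Nat.add_mul_mod_self_left] at h3
      exact h3
    have h4 : (s : ℕ) ≡ s' [MOD n] := by
      apply Nat.ModEq.cancel_left_of_coprime _ h2
      exact (Nat.coprime_comm.mp hcop)
    have h5 : (s : ℕ) = s' := by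
      apply Nat.ModEq.eq_of_lt_of_lt h4
      · exact lt_of_lt_of_le s.2 hS2
      · exact lt_of_lt_of_le s'.2 hS2
    have h6 : n * (t : ℕ) = n * (t' : ℕ) := by
      rw [h5] at h1; omega
    have h7 : (t : ℕ) = t' := Nat.eq_of_mul_eq_mul_left hn h6
    exact Prod.ext (Fin.ext h5) (Fin.ext h7)
  have hdet0 : G.det = 0 := by
    apply eq_zero_of_natDegree_lt_card_of_eval_eq_zero G.det hinj
    · rintro ⟨s, t⟩
      exact hvan s t s.2 t.2
    · simp only [Fintype.card_prod, Fintype.card_fin]
      omega
  -- the leading coefficient is a Vandermonde determinant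
  rw [hdet0, coeff_zero] at hdet2
  have hK : (Matrix.of fun u k => (G u k).coeff (d k)) =
      Matrix.of fun u k => (P (bb k)).leadingCoeff *
        (Matrix.vandermonde fun k => η ^ (bb k : ℕ)).transpose u k := by
    ext u k
    simp only [Matrix.of_apply, hG, hd, coeff_mul_C, Matrix.transpose_apply,
      Matrix.vandermonde_apply]
    have e1 : (taylor (((j * (u : ℕ) : ℕ) : ℂ)) (P (bb k))).coeff (P (bb k)).natDegree =
        (P (bb k)).leadingCoeff := by
      have e2 := leadingCoeff_taylor (R := ℂ) (f := P (bb k)) (r := (((j * (u : ℕ) : ℕ) : ℂ)))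
      rw [← e2, leadingCoeff, natDegree_taylor]
    rw [e1, ← pow_mul, Nat.mul_comm (bb k : ℕ) (u : ℕ)]
  rw [hK, Matrix.det_mul_row] at hdet2
  have hv : (Matrix.vandermonde fun k => η ^ (bb k : ℕ)).det ≠ 0 := by
    rw [Matrix.det_vandermonde_ne_zero_iff]
    intro k k' h
    exact hbbinj (Fin.ext (pow_inj h0 hr h))
  have hprod : ∏ k, (P (bb k)).leadingCoeff ≠ 0 := by
    rw [Finset.prod_ne_zero_iff]
    intro k _
    exact leadingCoeff_ne_zero.mpr (hbbP k)
  rw [Matrix.det_transpose] at hdet2
  exact (mul_ne_zero hprod hv) hdet2.symm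

end PkLT2

end Pool.Agent.Helper59.LUC
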