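import Pool.Agent.Helper59.LUC.Goals2
import Pool.Agent.Helper57.LUC.ND

/-!
# Project LUC2 (MP_387004_nt), packet RN2: the integers
-/

set_option autoImplicit false

open Polynomial

namespace Pool.Agent.Helper59.LUC

namespace PkRN2

lemma pw (κ κ' : ℂ) (u v : ℚ) (h1 : κ + κ' = u) (h2 : κ * κ' = v) (n : ℕ) :
    ∃ p q : ℚ, κ ^ n = p + q * κ ∧ κ' ^ n = p + q * κ' := by
  have e1 : κ ^ 2 = u * κ - v := by rw [← h1, ← h2]; ring
  have e2 : κ' ^ 2 = u * κ' - v := by rw [← h1, ← h2]; ring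
  induction n with
  | zero => exact ⟨1, 0, by simp, by simp⟩
  | succ n ih =>
    obtain ⟨p, q, hp, hq⟩ := ih
    refine ⟨-(q * v), p + q * u, ?_, ?_⟩
    · rw [pow_succ, hp]
      push_cast
      linear_combination (q : ℂ) * e1
    · rw [pow_succ, hq]
      push_cast
      linear_combination (q : ℂ) * e2

lemma pol (κ κ' : ℂ) (u v : ℚ) (h1 : κ + κ' = u) (h2 : κ * κ' = v) (G : ℚ[X]) :
    ∃ p q : ℚ, aeval κ G = p + q * κ ∧ aeval κ' G = p + q * κ' := by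
  induction G using Polynomial.induction_on' with
  | add f g hf hg =>
    obtain ⟨p, q, a, b⟩ := hf
    obtain ⟨p', q', a', b'⟩ := hg
    refine ⟨p + p', q + q', ?_, ?_⟩
    · rw [map_add, a, a']
      push_cast
      ring
    · rw [map_add, b, b']
      push_cast
      ring
  | monomial n a =>
    obtain ⟨p, q, hp, hq⟩ := pw κ κ' u v h1 h2 n
    refine ⟨a * p, a * q, ?_, ?_⟩
    · rw [aeval_monomial, hp, eq_ratCast]
      push_cast
      ring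
    · rw [aeval_monomial, hq, eq_ratCast]
      push_cast
      ring

lemma nrm (κ : ℂ) (u v : ℚ) (h1 : κ + (starRingEnd ℂ) κ = u) (h2 : κ * (starRingEnd ℂ) κ = v)
    (G : ℚ[X]) : ∃ q : ℚ, ‖aeval κ G‖ ^ 2 = (q : ℝ) := by
  obtain ⟨p, q, hp, hq⟩ := pol κ _ u v h1 h2 G
  have hc : (starRingEnd ℂ) (aeval κ G) = aeval ((starRingEnd ℂ) κ) G := by
    rw [hp, hq, map_add, map_mul, map_ratCast, map_ratCast]
  refine ⟨p ^ 2 + p * q * u + q ^ 2 * v, ?_⟩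
  have h3 : ((‖aeval κ G‖ ^ 2 : ℝ) : ℂ) = (((p ^ 2 + p * q * u + q ^ 2 * v : ℚ) : ℝ) : ℂ) := by
    rw [← Complex.normSq_eq_norm_sq, ← Complex.mul_conj, hc, hp, hq]
    push_cast
    linear_combination (p : ℂ) * q * h1 + (q : ℂ) ^ 2 * h2
  exact_mod_cast h3

variable {T M : ℤ} {η ξ : ℂ}

lemma norm_xi (h : Ctx T M η) (hξ : ξ ^ 2 = η) : ‖ξ‖ = 1 := by
  have h1 : ‖ξ‖ ^ 2 = 1 := by rw [← norm_pow, hξ, h.norm_eq]
  exact (pow_eq_one_iff_of_nonneg (norm_nonneg ξ) two_ne_zero).1 h1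

lemma conj_inv {z : ℂ} (hz : ‖z‖ = 1) : (starRingEnd ℂ) z = z⁻¹ := by
  rw [Complex.inv_def, Complex.normSq_eq_norm_sq, hz]
  simp

lemma conj_s {F : ℤ} {s : ℂ} (hs : s ^ 2 = (F : ℂ)) :
    (0 < F → (starRingEnd ℂ) s = s) ∧ (F < 0 → (starRingEnd ℂ) s = -s) := by
  have h1 : ((starRingEnd ℂ) s) ^ 2 = s ^ 2 := by
    rw [← map_pow, hs, map_intCast]
  have h2 : ((Complex.normSq s : ℝ) : ℂ) = s * (starRingEnd ℂ) s := (Complex.mul_conj s).symm
  have h0 : 0 ≤ Complex.normSq s := Complex.normSq_nonneg s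
  rcases sq_eq_sq_iff_eq_or_eq_neg.1 h1 with h3 | h3
  · refine ⟨fun _ => h3, fun hF => ?_⟩
    exfalso
    rw [h3, ← pow_two, hs] at h2
    have h4 : Complex.normSq s = (F : ℝ) := by exact_mod_cast h2
    have h5 : (F : ℝ) < 0 := by exact_mod_cast hF
    linarith
  · refine ⟨fun hF => ?_, fun _ => h3⟩
    exfalso
    rw [h3] at h2
    have h6 : ((Complex.normSq s : ℝ) : ℂ) = -(F : ℂ) := by rw [h2, ← hs]; ring
    have h4 : Complex.normSq s = -(F : ℝ) := by exact_mod_cast h6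
    have h5 : (0 : ℝ) < F := by exact_mod_cast hF
    linarith

lemma ratsq (x : ℂ) (a b : ℤ) (h : x ^ 2 = ((a : ℂ) / b) ^ 2) : ∃ u : ℚ, x = u := by
  rcases sq_eq_sq_iff_eq_or_eq_neg.1 h with h3 | h3
  · exact ⟨(a : ℚ) / b, by rw [h3]; push_cast; ring⟩
  · exact ⟨-((a : ℚ) / b), by rw [h3]; push_cast; ring⟩

lemma rat_sum (h : Ctx T M η) (hξ : ξ ^ 2 = η) {F : ℤ} (hS : SqC T M F) {s : ℂ}
    (hs : s ^ 2 = (F : ℂ)) : ∃ u : ℚ, ξ / s + (starRingEnd ℂ) (ξ / s) = u := by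
  obtain ⟨c, hc, hS⟩ := hS
  have hMp := h.Mpos
  have hlt := h.hlt
  have hMC := h.MC
  have hx1 := norm_xi h hξ
  have hx0 : ξ ≠ 0 := by
    rintro rfl
    simp at hx1
  have hcx : (starRingEnd ℂ) ξ = ξ⁻¹ := conj_inv hx1
  have hF0 : F ≠ 0 := by
    rintro rfl
    rcases hS with hS | hS
    · rw [zero_mul] at hS
      exact hc (pow_eq_zero_iff (two_ne_zero) |>.1 hS.symm)
    · rw [zero_mul] at hS
      exact hc (pow_eq_zero_iff (two_ne_zero) |>.1 hS.symm)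
  have hFC : (F : ℂ) ≠ 0 := by exact_mod_cast hF0
  have hs0 : s ≠ 0 := by
    rintro rfl
    apply hFC
    rw [← hs]
    simp
  have hc2 : 0 < c ^ 2 := by positivity
  have hadd := h.add_inv
  rw [← hξ] at hadd
  have hM1 : -(2 * M) < T ∧ T < 2 * M := by
    constructor <;> nlinarith
  rcases hS with hS | hS
  · have hpos : 0 < M * (T + 2 * M) := mul_pos hMp (by linarith [hM1.1])
    have hF : 0 < F := by
      by_contra hn
      have : F ≤ 0 := not_lt.1 hn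
      nlinarith
    rw [map_div₀, (conj_s hs).1 hF, hcx]
    refine ratsq _ c (F * M) ?_
    have hSC : (F : ℂ) * (M * (T + 2 * M)) = c ^ 2 := by exact_mod_cast hS
    have e1 : (ξ / s + ξ⁻¹ / s) ^ 2 = (ξ ^ 2 + (ξ ^ 2)⁻¹ + 2) / s ^ 2 := by
      field_simp
      ring
    rw [e1, hs, div_pow, ← hSC]
    push_cast
    rw [← hadd]
    field_simp
    try ring
  · have hpos : M * (T - 2 * M) < 0 := mul_neg_of_pos_of_neg hMp (by linarith [hM1.2])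
    have hF : F < 0 := by
      by_contra hn
      have : 0 ≤ F := not_lt.1 hn
      nlinarith
    rw [map_div₀, (conj_s hs).2 hF, hcx]
    refine ratsq _ c (F * M) ?_
    have hSC : (F : ℂ) * (M * (T - 2 * M)) = c ^ 2 := by exact_mod_cast hS
    have e1 : (ξ / s + ξ⁻¹ / -s) ^ 2 = (ξ ^ 2 + (ξ ^ 2)⁻¹ - 2) / s ^ 2 := by
      field_simp
      ring
    rw [e1, hs, div_pow, ← hSC]
    push_cast
    rw [← hadd]
    field_simp
    try ring

lemma normSq_s {F : ℤ} {s : ℂ} (hs : s ^ 2 = (F : ℂ)) : ‖s‖ ^ 2 = ((|F| : ℤ) : ℝ) := by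
  rw [← norm_pow, hs, Complex.norm_intCast, Int.cast_abs]

lemma rat_prod (h : Ctx T M η) (hξ : ξ ^ 2 = η) {F : ℤ} {s : ℂ}
    (hs : s ^ 2 = (F : ℂ)) : ∃ v : ℚ, ξ / s * (starRingEnd ℂ) (ξ / s) = v := by
  refine ⟨1 / ((|F| : ℤ) : ℚ), ?_⟩
  rw [Complex.mul_conj, Complex.normSq_eq_norm_sq, norm_div, div_pow, normSq_s hs, norm_xi h hξ,
    one_pow, Complex.ofReal_div, Complex.ofReal_one, Complex.ofReal_intCast, Rat.cast_div,
    Rat.cast_one, Rat.cast_intCast]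

lemma int_sqrt (h : Ctx T M η) (hξ : ξ ^ 2 = η) :
    IsIntegral ℤ ((Real.sqrt M : ℝ) : ℂ) ∧ IsIntegral ℤ (((Real.sqrt M : ℝ) : ℂ) * ξ) ∧
      IsIntegral ℤ (((Real.sqrt M : ℝ) : ℂ) * ξ⁻¹) := by
  have h1 : ((Real.sqrt M : ℝ) : ℂ) ^ 2 = (M : ℂ) := by
    rw [← Complex.ofReal_pow, Real.sq_sqrt h.MR.le]
    simp
  refine ⟨?_, ?_, ?_⟩
  · refine IsIntegral.of_pow (n := 2) two_pos ?_
    rw [h1]
    exact isIntegral_algebraMap (R := ℤ) (A := ℂ) (x := M)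
  · refine IsIntegral.of_pow (n := 2) two_pos ?_
    rw [mul_pow, h1, hξ]
    exact PkND.int_lam h
  · refine IsIntegral.of_pow (n := 2) two_pos ?_
    rw [mul_pow, h1, inv_pow, hξ]
    exact PkND.int_lam' h

lemma term (h : Ctx T M η) (hξ : ξ ^ 2 = η) {w : ℂ} (hw : ‖w‖ = 1) :
    ((Real.sqrt M * ‖ξ - w‖ ^ 2 : ℝ) : ℂ) = ((Real.sqrt M : ℝ) : ℂ) + ((Real.sqrt M : ℝ) : ℂ)
      - w⁻¹ * (((Real.sqrt M : ℝ) : ℂ) * ξ) - w * (((Real.sqrt M : ℝ) : ℂ) * ξ⁻¹) := by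
  have hx1 := norm_xi h hξ
  have hx0 : ξ ≠ 0 := by
    rintro rfl
    simp at hx1
  have hw0 : w ≠ 0 := by
    rintro rfl
    simp at hw
  rw [Complex.ofReal_mul, ← Complex.normSq_eq_norm_sq, ← Complex.mul_conj, map_sub, conj_inv hx1,
    conj_inv hw]
  have h1 : ξ * ξ⁻¹ = 1 := mul_inv_cancel₀ hx0
  have h2 : w * w⁻¹ = 1 := mul_inv_cancel₀ hw0
  linear_combination ((Real.sqrt M : ℝ) : ℂ) * h1 + ((Real.sqrt M : ℝ) : ℂ) * h2

lemma rootu {w : ℂ} {n : ℕ} (hn : 0 < n) (hw : w ^ n = 1) : ‖w‖ = 1 ∧ IsIntegral ℤ w ∧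
    IsIntegral ℤ w⁻¹ := by
  refine ⟨Complex.norm_eq_one_of_pow_eq_one hw hn.ne', ?_, ?_⟩
  · refine IsIntegral.of_pow hn ?_
    rw [hw]
    exact isIntegral_one
  · refine IsIntegral.of_pow hn ?_
    rw [inv_pow, hw, inv_one]
    exact isIntegral_one

theorem thm : G_RN2 := by
  intro T M η ξ h hξ F hS s hs O hO hroot hG
  obtain ⟨G, hG⟩ := hG
  obtain ⟨u, hu⟩ := rat_sum h hξ hS hs
  obtain ⟨v, hv⟩ := rat_prod h hξ hs
  obtain ⟨q, hq⟩ := nrm (ξ / s) u v hu hv G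
  obtain ⟨k, hk⟩ := hO
  have hF0 : s ≠ 0 := by
    rintro rfl
    obtain ⟨c, hc, hS⟩ := hS
    have h0 : F = 0 := by
      have : (F : ℂ) = 0 := by rw [← hs]; simp
      exact_mod_cast this
    subst h0
    rcases hS with hS | hS
    · rw [zero_mul] at hS
      exact hc (pow_eq_zero_iff (two_ne_zero) |>.1 hS.symm)
    · rw [zero_mul] at hS
      exact hc (pow_eq_zero_iff (two_ne_zero) |>.1 hS.symm)
  -- rational
  have hrat : ∏ w ∈ O, (Real.sqrt M * ‖ξ - w‖ ^ 2) =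
      ((M ^ k * |F| ^ O.card * q : ℚ) : ℝ) := by
    have e1 : ∀ w ∈ O, Real.sqrt M * ‖ξ - w‖ ^ 2 =
        Real.sqrt M * (‖s‖ ^ 2 * ‖ξ / s - w / s‖ ^ 2) := by
      intro w _
      have : ξ - w = s * (ξ / s - w / s) := by
        field_simp
      rw [← mul_pow, ← norm_mul, ← this]
    rw [Finset.prod_congr rfl e1, Finset.prod_mul_distrib, Finset.prod_mul_distrib,
      Finset.prod_const, Finset.prod_const, Finset.prod_pow, ← norm_prod]
    have e2 : ∏ w ∈ O, (ξ / s - w / s) = aeval (ξ / s) G := by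
      rw [← eval_map_algebraMap, hG, eval_prod]
      simp only [eval_sub, eval_X, eval_C]
    rw [e2, hq, normSq_s hs]
    have e3 : Real.sqrt M ^ O.card = (M : ℝ) ^ k := by
      rw [hk, ← two_mul, pow_mul, Real.sq_sqrt h.MR.le]
    rw [e3]
    push_cast
    ring
  have hint : IsIntegral ℤ ((∏ w ∈ O, (Real.sqrt M * ‖ξ - w‖ ^ 2) : ℝ) : ℂ) := by
    rw [Complex.ofReal_prod]
    refine IsIntegral.prod _ fun w hw => ?_
    obtain ⟨n, hn, hwn⟩ := hroot w hw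
    obtain ⟨w1, w2, w3⟩ := rootu hn hwn
    obtain ⟨m1, m2, m3⟩ := int_sqrt h hξ
    rw [term h hξ w1]
    exact ((m1.add m1).sub (w3.mul m2)).sub (w2.mul m3)
  rw [hrat] at hint
  have h2 : ((((M ^ k * |F| ^ O.card * q : ℚ) : ℝ)) : ℂ) =
      algebraMap ℚ ℂ (M ^ k * |F| ^ O.card * q : ℚ) := by
    rw [eq_ratCast, Complex.ofReal_ratCast]
  rw [h2] at hint
  have h3 := (isIntegral_algebraMap_iff (algebraMap ℚ ℂ).injective).mp hint
  obtain ⟨z, hz⟩ := IsIntegrallyClosed.isIntegral_iff.mp h3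
  have h4 : (z : ℝ) = ∏ w ∈ O, (Real.sqrt M * ‖ξ - w‖ ^ 2) := by
    rw [hrat, ← hz]
    simp
  have h5 : (0 : ℝ) ≤ z := by
    rw [h4]
    exact Finset.prod_nonneg fun w _ => by positivity
  have h6 : 0 ≤ z := by exact_mod_cast h5
  refine ⟨z.toNat, ?_⟩
  rw [← h4]
  have h7 : ((z.toNat : ℤ) : ℝ) = z := by
    rw [Int.toNat_of_nonneg h6]
  exact_mod_cast h7

end PkRN2

end Pool.Agent.Helper59.LUC
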